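import Pool.Agent.Lib.helper28.PropTB

set_option autoImplicit false

namespace Pool.Agent.Results.MP_898cae_lc.Continuum

open MeasureTheory Set Cardinal Pool.Agent.H28PropT

/-- the least cardinality of a maximal subalgebra with property (T) -/
noncomputable def propT : Cardinal.{0} :=
  sInf {c : Cardinal.{0} | ∃ B : BooleanSubalgebra (Set Cantor), Maximal HasT B ∧ #B = c}

lemma good_congr {ε : ℝ} {n : ℕ} {A A' : Set Cantor} (h : A =ᵐ[lam] A') (hg : Good ε n A') :
    Good ε n A := by
  intro s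
  have e1 : lam.real (A ∩ atom n s) = lam.real (A' ∩ atom n s) :=
    measureReal_congr (ae_eq_set_inter h (ae_eq_refl _))
  have e2 : lam.real (atom n s \ A) = lam.real (atom n s \ A') :=
    measureReal_congr (ae_eq_set_sdiff (ae_eq_refl _) h)
  have e3 : ∀ m b, lam.real (A ∩ atom n s ∩ V m b) = lam.real (A' ∩ atom n s ∩ V m b) :=
    fun m b => measureReal_congr (ae_eq_set_inter (ae_eq_set_inter h (ae_eq_refl _)) (ae_eq_refl _))
  rw [e1, e2]
  refine ⟨(hg s).1, fun m hm => ?_⟩
  have := (hg s).2 m hm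
  unfold phi at this ⊢
  rwa [e3, e3]

/-- null modifications -/
def nullExt (B : BooleanSubalgebra (Set Cantor)) : BooleanSubalgebra (Set Cantor) where
  carrier := {A | MeasurableSet A ∧ ∃ A' ∈ B, A =ᵐ[lam] A'}
  supClosed' := by
    rintro a ⟨ha, a', ha', h⟩ b ⟨hb, b', hb', h'⟩
    exact ⟨ha.union hb, a' ⊔ b', BooleanSubalgebra.sup_mem ha' hb', ae_eq_set_union h h'⟩
  infClosed' := by
    rintro a ⟨ha, a', ha', h⟩ b ⟨hb, b', hb', h'⟩
    exact ⟨ha.inter hb, a' ⊓ b', BooleanSubalgebra.inf_mem ha' hb', ae_eq_set_inter h h'⟩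
  compl_mem' := by
    rintro a ⟨ha, a', ha', h⟩
    exact ⟨ha.compl, a'ᶜ, BooleanSubalgebra.compl_mem ha', ae_eq_set_compl_compl.mpr h⟩
  bot_mem' := ⟨MeasurableSet.empty, ⊥, BooleanSubalgebra.bot_mem, ae_eq_refl _⟩

lemma le_nullExt {B : BooleanSubalgebra (Set Cantor)} (h : HasT B) : B ≤ nullExt B :=
  fun A hA => ⟨h.meas hA, A, hA, ae_eq_refl _⟩

lemma hasT_nullExt {B : BooleanSubalgebra (Set Cantor)} (h : HasT B) : HasT (nullExt B) := by
  classical
  refine ⟨fun A hA => (borel_iff A).mpr hA.1, fun A hA => le_nullExt h (h.2.1 A hA),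
    fun F hF ε hε => ?_⟩
  have : ∀ A : F, ∃ A' ∈ B, (A : Set Cantor) =ᵐ[lam] A' := fun A => (hF A A.2).2
  choose f hf hf' using this
  obtain ⟨n, hn, hg⟩ := h.2.2 (Finset.univ.image f) (by
    intro A hA
    obtain ⟨a, -, rfl⟩ := Finset.mem_image.mp hA
    exact hf a) ε hε
  exact ⟨n, hn, fun A hA => good_congr (hf' ⟨A, hA⟩)
    (hg _ (Finset.mem_image_of_mem f (Finset.mem_univ _)))⟩

lemma lam_single (x : Cantor) : lam {x} = 0 := by
  have h : ∀ n : ℕ, lam.real {x} ≤ (1 / 2) ^ n := by
    intro n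
    refine (measureReal_mono (singleton_subset_iff.mpr (self_mem_atom n x))).trans ?_
    rw [lam_atom, one_div_pow]
    exact one_div_le_one_div_of_le (by positivity) (pow_le_pow_right₀ (by norm_num) (by omega))
  have h2 : lam.real {x} ≤ 0 :=
    ge_of_tendsto' (tendsto_pow_atTop_nhds_zero_of_lt_one (by norm_num) (by norm_num)) h
  have h3 : lam.real {x} = 0 := le_antisymm h2 measureReal_nonneg
  exact (measureReal_eq_zero_iff).mp h3

lemma card_max {B : BooleanSubalgebra (Set Cantor)} (h : Maximal HasT B) : #B = 𝔠 := by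
  apply le_antisymm
  · have h1 : #{A : Set Cantor // MeasurableSet A} ≤ 𝔠 := by
      have h2 := MeasurableSpace.cardinal_measurableSet_le_continuum
        (s := MeasurableSpace.countableGeneratingSet Cantor)
        ((le_aleph0_iff_set_countable.mpr MeasurableSpace.countable_countableGeneratingSet).trans
          aleph0_le_continuum)
      rw [MeasurableSpace.generateFrom_countableGeneratingSet] at h2
      exact h2
    exact (mk_subtype_mono (fun A hA => h.prop.meas hA)).trans h1
  · have hs : ∀ x : Cantor, ({x} : Set Cantor) ∈ B := fun x =>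
      h.le_of_ge (hasT_nullExt h.prop) (le_nullExt h.prop)
        ⟨MeasurableSet.singleton x, ⊥, BooleanSubalgebra.bot_mem, ae_eq_empty.mpr (lam_single x)⟩
    have : #Cantor ≤ #B := mk_le_of_injective (f := fun x => (⟨{x}, hs x⟩ : B))
      fun x y hxy => singleton_injective (congrArg Subtype.val hxy)
    simpa using this

/-- In ZFC, `prop_(T) = 𝔠`. -/
theorem result : propT = 𝔠 := by
  obtain ⟨M, -, hM⟩ := exists_maximal hasT_B0
  have : {c : Cardinal.{0} | ∃ B : BooleanSubalgebra (Set Cantor), Maximal HasT B ∧ #B = c}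
      = {𝔠} := by
    ext c
    constructor
    · rintro ⟨B, hB, rfl⟩; exact card_max hB
    · rintro rfl; exact ⟨M, hM, card_max hM⟩
  rw [propT, this, csInf_singleton]

end Pool.Agent.Results.MP_898cae_lc.Continuum
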